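import Pool.Agent.H589.Marg.Key
import Pool.Agent.H589.Count.Main

/-!
# The number of exceptional fields
-/

set_option autoImplicit false

open Polynomial NumberField Module

namespace Pool.Agent.H589.Marg

open Pool.Agent.H225R3.Marg Pool.Agent.H589.Count

/-- the fields generated by the coefficients of a factor of degree `n` of an integer polynomial of
small Mahler measure -/
def Exc (n : ℕ) (ε : ℝ) : Set (IntermediateField ℚ ℂ) :=
  {K | 16 ≤ finrank ℚ K ∧ ∃ F : ℤ[X],
    F ∈ smallSet (n * finrank ℚ K) (((n * finrank ℚ K : ℕ) : ℝ) ^ (1 / 2 - ε)) ∧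
    ∃ v : Fin n → ℂ, (∀ i, v i ∈ (F.map (Int.castRingHom ℂ)).roots) ∧
      K = coeffField (∏ i, (X - C (v i)))}

theorem exc_card (n m : ℕ) (ε : ℝ) :
    {K | K ∈ Exc n ε ∧ finrank ℚ K = m}.Finite ∧
    {K | K ∈ Exc n ε ∧ finrank ℚ K = m}.ncard ≤
      (smallSet (n * m) (((n * m : ℕ) : ℝ) ^ (1 / 2 - ε))).ncard * (n * m) ^ n := by
  classical
  set W := smallSet (n * m) (((n * m : ℕ) : ℝ) ^ (1 / 2 - ε)) with hW
  have hfin : W.Finite := smallSet_finite _ _
  set P : Finset (IntermediateField ℚ ℂ) := hfin.toFinset.biUnion fun F =>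
    (Fintype.piFinset fun _ : Fin n => (F.map (Int.castRingHom ℂ)).roots.toFinset).image
      fun v => coeffField (∏ i, (X - C (v i))) with hP
  have hsub : {K | K ∈ Exc n ε ∧ finrank ℚ K = m} ⊆ (P : Set (IntermediateField ℚ ℂ)) := by
    rintro K ⟨⟨_, F, hF, v, hv, hK⟩, hm⟩
    rw [hm] at hF
    rw [hP, Finset.mem_coe, Finset.mem_biUnion]
    refine ⟨F, hfin.mem_toFinset.mpr hF, ?_⟩
    rw [Finset.mem_image]
    exact ⟨v, Fintype.mem_piFinset.mpr fun i => Multiset.mem_toFinset.mpr (hv i), hK.symm⟩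
  refine ⟨P.finite_toSet.subset hsub, ?_⟩
  refine (Set.ncard_le_ncard hsub P.finite_toSet).trans ?_
  rw [Set.ncard_coe_finset]
  refine (Finset.card_biUnion_le).trans ?_
  rw [Set.ncard_eq_toFinset_card _ hfin]
  refine (Finset.sum_le_card_nsmul _ _ ((n * m) ^ n) fun F hF => ?_).trans (le_of_eq (by
    rw [smul_eq_mul]))
  refine Finset.card_image_le.trans ?_
  rw [Fintype.card_piFinset_const]
  refine Nat.pow_le_pow_left ?_ n
  refine (Multiset.toFinset_card_le _).trans ((card_roots' _).trans ?_)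
  refine natDegree_map_le.trans ?_
  exact (hfin.mem_toFinset.mp hF).2.1

/-- the number of exceptional fields of degree `m` is subexponential in `m` -/
theorem exc_count (n : ℕ) (hn : 0 < n) (ε : ℝ) (hε : 0 < ε) : ∃ C : ℝ, ∀ m : ℕ, 16 ≤ m →
    ({K | K ∈ Exc n ε ∧ finrank ℚ K = m}.ncard : ℝ) ≤
      Real.exp (C * m * Real.log (Real.log m) ^ 2 / Real.log m) := by
  obtain ⟨C₀, hC₀⟩ := counting ε hε
  set C₁ : ℝ := max C₀ 0 with hC₁
  have hn1 : (1 : ℝ) ≤ n := by exact_mod_cast hn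
  set a : ℝ := 1 + Real.log n with ha
  have hlogn : 0 ≤ Real.log n := Real.log_nonneg hn1
  have ha1 : 1 ≤ a := by linarith
  set b : ℝ := 1 + Real.log a with hb
  have hb1 : 1 ≤ b := by
    have := Real.log_nonneg ha1; linarith
  refine ⟨C₁ * n * b ^ 2 + n * a, fun m hm => ?_⟩
  have hm' : (16 : ℝ) ≤ m := by exact_mod_cast hm
  have hlog16 : (2.7725 : ℝ) ≤ Real.log 16 := by
    have h1 : Real.log 16 = 4 * Real.log 2 := by
      rw [show (16 : ℝ) = 2 ^ 4 by norm_num, Real.log_pow]; norm_num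
    have := Real.log_two_gt_d9
    rw [h1]; linarith
  have hlm : (2.7725 : ℝ) ≤ Real.log m :=
    hlog16.trans (Real.log_le_log (by norm_num) hm')
  have hlm0 : 0 < Real.log m := by linarith
  have hll1 : 1 ≤ Real.log (Real.log m) := by
    rw [Real.le_log_iff_exp_le hlm0]
    have := Real.exp_one_lt_d9
    linarith
  have hnm : 16 ≤ n * m := hm.trans (Nat.le_mul_of_pos_left m hn)
  have hcast : ((n * m : ℕ) : ℝ) = n * m := by push_cast; ring
  have hlnm : Real.log ((n * m : ℕ) : ℝ) = Real.log n + Real.log m := by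
    rw [hcast, Real.log_mul (by positivity) (by positivity)]
  have hlnm_ge : Real.log m ≤ Real.log ((n * m : ℕ) : ℝ) := by rw [hlnm]; linarith
  have hlnm_le : Real.log ((n * m : ℕ) : ℝ) ≤ a * Real.log m := by
    rw [hlnm, ha]
    nlinarith
  have hll_le : Real.log (Real.log ((n * m : ℕ) : ℝ)) ≤ b * Real.log (Real.log m) := by
    have h1 : Real.log (Real.log ((n * m : ℕ) : ℝ)) ≤ Real.log (a * Real.log m) :=
      Real.log_le_log (by linarith) hlnm_le
    rw [Real.log_mul (by positivity) (by positivity)] at h1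
    have h2 : 0 ≤ Real.log a := Real.log_nonneg ha1
    rw [hb]
    nlinarith
  have hll_0 : 0 ≤ Real.log (Real.log ((n * m : ℕ) : ℝ)) :=
    Real.log_nonneg (by linarith)
  -- the two factors
  have h1 : ((smallSet (n * m) (((n * m : ℕ) : ℝ) ^ (1 / 2 - ε))).ncard : ℝ) ≤
      Real.exp (C₁ * n * b ^ 2 * (m * Real.log (Real.log m) ^ 2 / Real.log m)) := by
    refine (hC₀ (n * m) hnm).trans (Real.exp_le_exp.mpr ?_)
    have hA : 0 ≤ ((n * m : ℕ) : ℝ) * Real.log (Real.log ((n * m : ℕ) : ℝ)) ^ 2 /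
        Real.log ((n * m : ℕ) : ℝ) := by
      have : 0 < Real.log ((n * m : ℕ) : ℝ) := by linarith
      positivity
    calc C₀ * ((n * m : ℕ) : ℝ) * Real.log (Real.log ((n * m : ℕ) : ℝ)) ^ 2 /
          Real.log ((n * m : ℕ) : ℝ)
        = C₀ * (((n * m : ℕ) : ℝ) * Real.log (Real.log ((n * m : ℕ) : ℝ)) ^ 2 /
          Real.log ((n * m : ℕ) : ℝ)) := by ring
      _ ≤ C₁ * (((n * m : ℕ) : ℝ) * Real.log (Real.log ((n * m : ℕ) : ℝ)) ^ 2 /
          Real.log ((n * m : ℕ) : ℝ)) := mul_le_mul_of_nonneg_right (le_max_left _ _) hA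
      _ ≤ C₁ * ((n * m : ℝ) * (b * Real.log (Real.log m)) ^ 2 / Real.log m) := by
          refine mul_le_mul_of_nonneg_left ?_ (le_max_right _ _)
          rw [hcast]
          rw [← hcast]
          refine div_le_div₀ (by positivity) ?_ hlm0 hlnm_ge
          exact mul_le_mul_of_nonneg_left (pow_le_pow_left₀ hll_0 hll_le 2) (by positivity)
      _ = C₁ * n * b ^ 2 * (m * Real.log (Real.log m) ^ 2 / Real.log m) := by ring
  have h2 : (((n * m) ^ n : ℕ) : ℝ) ≤
      Real.exp (n * a * (m * Real.log (Real.log m) ^ 2 / Real.log m)) := by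
    have hpos : (0 : ℝ) < ((n * m : ℕ) : ℝ) := by rw [hcast]; positivity
    have h3 : (((n * m) ^ n : ℕ) : ℝ) = Real.exp (n * Real.log ((n * m : ℕ) : ℝ)) := by
      rw [← Real.log_pow, Real.exp_log (by positivity)]
      push_cast; ring
    rw [h3]
    refine Real.exp_le_exp.mpr ?_
    have h4 : Real.log m * Real.log m ≤ m := by
      -- log x ≤ sqrt x · ... via log m = 2 log √m ≤ 2 (√m/2)...
      have h5 : Real.log m ≤ √m := by
        have h6 : Real.log (√(√(m : ℝ))) ≤ √(√(m : ℝ)) - 1 :=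
          Real.log_le_sub_one_of_pos (by positivity)
        have h7 : Real.log (√(√(m : ℝ))) = Real.log m / 4 := by
          rw [Real.log_sqrt (Real.sqrt_nonneg _), Real.log_sqrt (by positivity)]; ring
        have h8 : √(√(m : ℝ)) * √(√(m : ℝ)) = √(m : ℝ) := Real.mul_self_sqrt (Real.sqrt_nonneg _)
        nlinarith [sq_nonneg (√(√(m : ℝ)) - 2)]
      have h9 : √(m : ℝ) * √m = m := Real.mul_self_sqrt (by positivity)
      nlinarith
    have h5 : Real.log m ≤ m * Real.log (Real.log m) ^ 2 / Real.log m := by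
      rw [le_div_iff₀ hlm0]
      have h6 : (1 : ℝ) ≤ Real.log (Real.log m) ^ 2 := one_le_pow₀ hll1
      nlinarith
    calc (n : ℝ) * Real.log ((n * m : ℕ) : ℝ) ≤ n * (a * Real.log m) :=
          mul_le_mul_of_nonneg_left hlnm_le (by positivity)
      _ = n * a * Real.log m := by ring
      _ ≤ _ := mul_le_mul_of_nonneg_left h5 (by positivity)
  have h3 := (exc_card n m ε).2
  have h4 : ({K | K ∈ Exc n ε ∧ finrank ℚ K = m}.ncard : ℝ) ≤
      ((smallSet (n * m) (((n * m : ℕ) : ℝ) ^ (1 / 2 - ε))).ncard : ℝ) *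
        (((n * m) ^ n : ℕ) : ℝ) := by exact_mod_cast h3
  refine h4.trans ((mul_le_mul h1 h2 (by positivity) (Real.exp_nonneg _)).trans ?_)
  rw [← Real.exp_add]
  refine Real.exp_le_exp.mpr (le_of_eq ?_)
  ring

end Pool.Agent.H589.Marg
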