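import Pool.Agent.H589.Marg.Norm
import Pool.Graph.R_seed8.H225R3.Marg8

/-!
# The norm polynomial over the field generated by the coefficients of a characteristic polynomial
-/

set_option autoImplicit false
set_option linter.unusedSectionVars false

open Polynomial NumberField Module

namespace Pool.Agent.H589.Marg

open Pool.Agent.H225R3.Marg

/-- the field generated by the coefficients of `p` -/
def coeffField {L : Type*} [Field L] [Algebra ℚ L] (p : L[X]) : IntermediateField ℚ L :=
  IntermediateField.adjoin ℚ (Set.range p.coeff)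

/-- the field generated by the coefficients of the characteristic polynomial -/
noncomputable def tf {k : Type} [Field k] [NumberField k] {n : ℕ}
    (A : Matrix (Fin n) (Fin n) (𝓞 k)) : IntermediateField ℚ k :=
  coeffField (A.charpoly.map (algebraMap (𝓞 k) k))

variable {k : Type} [Field k] [NumberField k] {n : ℕ}

theorem charpoly_emb (A : Matrix (Fin n) (Fin n) (𝓞 k)) (σ : k →+* ℂ) :
    ((emb σ).mapMatrix A).charpoly = (A.charpoly.map (algebraMap (𝓞 k) k)).map σ := by
  rw [Polynomial.map_map, ← Matrix.charpoly_map]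
  rfl

theorem map_tf (A : Matrix (Fin n) (Fin n) (𝓞 k)) (σ : k →ₐ[ℚ] ℂ) :
    (tf A).map σ = coeffField ((emb (σ : k →+* ℂ)).mapMatrix A).charpoly := by
  unfold tf coeffField
  rw [IntermediateField.adjoin_map, charpoly_emb]
  congr 1
  ext z
  simp only [Set.mem_image, Set.mem_range, coeff_map, exists_exists_eq_and]
  rfl

theorem finrank_map_tf (F : IntermediateField ℚ k) (σ : k →ₐ[ℚ] ℂ) :
    finrank ℚ (F.map σ) = finrank ℚ F :=
  ((F.equivMap σ).toLinearEquiv.finrank_eq).symm

theorem key (A : Matrix (Fin n) (Fin n) (𝓞 k)) (S : Finset (k →+* ℂ)) (L : ℝ) (hL : 1 ≤ L)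
    (hout : ∀ σ : k →+* ℂ, σ ∉ S → ∀ l : ℂ, ((emb σ).mapMatrix A).charpoly.IsRoot l → ‖l‖ ≤ 1)
    (hin : ∀ σ ∈ S, ∀ l : ℂ, ((emb σ).mapMatrix A).charpoly.IsRoot l → ‖l‖ ≤ L) :
    ∃ F : ℤ[X], F.Monic ∧ F.natDegree = n * finrank ℚ (tf A) ∧
      (F.map (Int.castRingHom ℂ)).mahlerMeasure ≤ L ^ (n * (S.card / finrank (tf A) k)) ∧
      ∀ σ : k →+* ℂ, ((emb σ).mapMatrix A).charpoly ∣ F.map (Int.castRingHom ℂ) := by
  classical
  set c : k[X] := A.charpoly.map (algebraMap (𝓞 k) k) with hc
  have hcm : c.Monic := A.charpoly_monic.map _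
  have hcd : c.natDegree = n := by
    rw [hc, A.charpoly_monic.natDegree_map, Matrix.charpoly_natDegree_eq_dim, Fintype.card_fin]
  have hlift : c ∈ lifts (algebraMap (tf A) k) := by
    rw [lifts_iff_coeff_lifts]
    intro i
    exact ⟨⟨c.coeff i, IntermediateField.subset_adjoin _ _ ⟨i, rfl⟩⟩, rfl⟩
  obtain ⟨c', hc'⟩ := (mem_lifts _).mp hlift
  have hinj : Function.Injective (algebraMap (tf A) k) := (algebraMap (tf A) k).injective
  have hcm' : c'.Monic := by
    rw [← hc'] at hcm
    exact monic_of_injective hinj hcm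
  have hcd' : c'.natDegree = n := by
    have h1 : c'.natDegree = c.natDegree := by rw [← hc', hcm'.natDegree_map]
    exact h1.trans hcd
  have hint : ∀ i, IsIntegral ℤ (c'.coeff i) := by
    intro i
    have h1 : algebraMap (tf A) k (c'.coeff i) = algebraMap (𝓞 k) k (A.charpoly.coeff i) := by
      rw [← coeff_map, hc', hc, coeff_map]
    have h2 : IsIntegral ℤ (algebraMap (tf A) k (c'.coeff i)) := by
      rw [h1]; exact RingOfIntegers.isIntegral_coe _
    exact (isIntegral_algebraMap_iff hinj).mp h2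
  obtain ⟨F, hFm, hF⟩ := exists_int c' hcm' hint
  have hres : ∀ σ : k →+* ℂ, ((emb σ).mapMatrix A).charpoly =
      c'.map (σ.comp (algebraMap (tf A) k)) := by
    intro σ
    rw [charpoly_emb, ← hc, ← hc', Polynomial.map_map]
  refine ⟨F, hFm, ?_, ?_, ?_⟩
  · rw [← natDegree_map_eq_of_injective (RingHom.injective_int (Int.castRingHom ℂ)) F, hF,
      PP_natDegree c' hcm', hcd']
  · rw [hF]
    unfold PP
    rw [mahler_prod]
    set T : Finset ((tf A) →+* ℂ) :=
      Finset.univ.filter fun τ => ∀ σ : k →+* ℂ, σ.comp (algebraMap (tf A) k) = τ → σ ∈ S with hT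
    have hTc : T.card * finrank (tf A) k ≤ S.card := by
      rw [← card_over (k := (tf A)) (L := k) T]
      refine Finset.card_le_card fun σ hσ => ?_
      have h1 := (Finset.mem_filter.mp hσ).2
      exact (Finset.mem_filter.mp h1).2 σ rfl
    have hTc' : T.card ≤ S.card / finrank (tf A) k :=
      (Nat.le_div_iff_mul_le finrank_pos).mpr hTc
    have hfac : ∀ τ : (tf A) →+* ℂ, (c'.map τ).mahlerMeasure ≤ if τ ∈ T then L ^ n else 1 := by
      intro τ
      split_ifs with hτ
      · have hne : 0 < Nat.card {σ : k →+* ℂ // σ.comp (algebraMap (tf A) k) = τ} := by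
          rw [natCard_ext]; exact finrank_pos
        obtain ⟨⟨σ, hσ⟩⟩ := (Nat.card_pos_iff.mp hne).1
        have h1 := (Finset.mem_filter.mp hτ).2 σ hσ
        have h2 := mahler_le (c'.map τ) (hcm'.map τ) L hL fun z hz => by
          rw [← hσ, ← hres σ] at hz
          exact hin σ h1 z hz
        rwa [hcm'.natDegree_map, hcd'] at h2
      · have h0 : ∃ σ : k →+* ℂ, σ.comp (algebraMap (tf A) k) = τ ∧ σ ∉ S := by
          by_contra hcon
          push Not at hcon
          exact hτ (Finset.mem_filter.mpr ⟨Finset.mem_univ _, hcon⟩)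
        obtain ⟨σ, hσ, hσS⟩ := h0
        have h2 := mahler_le (c'.map τ) (hcm'.map τ) 1 le_rfl fun z hz => by
          rw [← hσ, ← hres σ] at hz
          exact hout σ hσS z hz
        rwa [one_pow] at h2
    calc ∏ τ : (tf A) →+* ℂ, (c'.map τ).mahlerMeasure
        ≤ ∏ τ : (tf A) →+* ℂ, (if τ ∈ T then L ^ n else 1) :=
          Finset.prod_le_prod (fun τ _ => mahlerMeasure_nonneg _) fun τ _ => hfac τ
      _ = L ^ (n * T.card) := by
          rw [Finset.prod_ite_mem, Finset.univ_inter, Finset.prod_const, ← pow_mul]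
      _ ≤ L ^ (n * (S.card / finrank (tf A) k)) :=
          pow_le_pow_right₀ hL (Nat.mul_le_mul_left _ hTc')
  · intro σ
    rw [hF, hres σ]
    exact Finset.dvd_prod_of_mem _ (Finset.mem_univ _)

/-- if the norm polynomial has measure `1` then some power of the matrix is unipotent -/
theorem nilp_of_mahler (A : Matrix (Fin n) (Fin n) (𝓞 k)) (hA : IsUnit A) (F : ℤ[X])
    (hM : (F.map (Int.castRingHom ℂ)).mahlerMeasure = 1) (σ : k →+* ℂ)
    (hd : ((emb σ).mapMatrix A).charpoly ∣ F.map (Int.castRingHom ℂ)) :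
    ∃ N : ℕ, 0 < N ∧ IsNilpotent (A ^ N - 1) := by
  have hF0 : F.map (Int.castRingHom ℂ) ≠ 0 := by
    intro h
    rw [h] at hM
    simp at hM
  have hinj : Function.Injective (emb σ) :=
    σ.injective.comp (RingOfIntegers.coe_injective)
  refine nilp_of_roots (emb σ) hinj A fun l hl => ?_
  have hchar : A.charpoly.map (emb σ) = ((emb σ).mapMatrix A).charpoly := by
    rw [← Matrix.charpoly_map]; rfl
  rw [hchar] at hl
  have hl0 : l ≠ 0 := by
    rintro rfl
    have h1 : IsUnit ((emb σ).mapMatrix A) := hA.map _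
    have h2 := (Matrix.isUnit_iff_isUnit_det _).mp h1
    rw [IsRoot, Matrix.eval_charpoly] at hl
    simp only [map_zero, zero_sub, Matrix.det_neg] at hl
    have h3 : ((emb σ).mapMatrix A).det = 0 := by
      rcases mul_eq_zero.mp hl with h | h
      · exact absurd h (pow_ne_zero _ (by norm_num))
      · exact h
    rw [h3] at h2
    exact not_isUnit_zero h2
  apply pow_eq_one_of_mahlerMeasure_eq_one hM hl0
  rw [mem_aroots]
  refine ⟨?_, ?_⟩
  · intro h
    rw [h] at hF0
    simp at hF0
  · have h1 : (F.map (Int.castRingHom ℂ)).IsRoot l := hl.dvd hd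
    rw [IsRoot, eval_map] at h1
    rw [aeval_def]
    exact h1

end Pool.Agent.H589.Marg
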