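import Pool.Agent.H589.Marg.Few
import Pool.Graph.R_seed8.H225R3.Marg8

/-!
# Short elements of arithmetic groups have exceptional trace fields
-/

set_option autoImplicit false
set_option linter.unusedSectionVars false

open Polynomial NumberField Module

namespace Pool.Agent.H589.Marg

open Pool.Agent.H225R3.Marg Pool.Agent.H589.Count

/-- a monic polynomial of degree `n` is given by `n` roots -/
theorem exists_roots (n : ℕ) (p : ℂ[X]) (hp : p.Monic) (hd : p.natDegree = n) :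
    ∃ v : Fin n → ℂ, (∀ i, v i ∈ p.roots) ∧ p = ∏ i, (X - C (v i)) := by
  have hs : p.Splits := IsAlgClosed.splits p
  have hcard : p.roots.toList.length = n := by
    rw [Multiset.length_toList, ← hd]
    exact (splits_iff_card_roots.mp hs)
  refine ⟨fun i => p.roots.toList.get (i.cast hcard.symm), fun i => ?_, ?_⟩
  · rw [← Multiset.mem_toList]
    exact List.get_mem _ _
  · have h1 := hs.eq_prod_roots_of_monic hp
    conv_lhs => rw [h1]
    have h2 : p.roots = (p.roots.toList : Multiset ℂ) := (Multiset.coe_toList _).symm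
    conv_lhs => rw [h2]
    rw [Multiset.map_coe, Multiset.prod_coe]
    rw [← List.prod_ofFn]
    congr 1
    apply List.ext_get
    · simp [hcard]
    · intro i h3 h4
      simp

section

variable {k : Type} [Field k] [NumberField k] {n : ℕ}

/-- the trace field of a matrix with small norm polynomial is exceptional -/
theorem mem_exc (A : Matrix (Fin n) (Fin n) (𝓞 k)) (ε : ℝ) (F : ℤ[X]) (hF : F.Monic)
    (hdeg : F.natDegree = n * finrank ℚ (tf A))
    (hM : (F.map (Int.castRingHom ℂ)).mahlerMeasure ≤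
      ((n * finrank ℚ (tf A) : ℕ) : ℝ) ^ (1 / 2 - ε))
    (hd : ∀ σ : k →+* ℂ, ((emb σ).mapMatrix A).charpoly ∣ F.map (Int.castRingHom ℂ))
    (hm : 16 ≤ finrank ℚ (tf A)) (σ : k →ₐ[ℚ] ℂ) : (tf A).map σ ∈ Exc n ε := by
  have hF0 : F.map (Int.castRingHom ℂ) ≠ 0 := (hF.map _).ne_zero
  refine ⟨?_, F, ?_, ?_⟩
  · rw [finrank_map_tf]; exact hm
  · rw [finrank_map_tf]
    exact ⟨hF.ne_zero, hdeg.le, hM⟩
  · obtain ⟨v, hv, hp⟩ := exists_roots n ((emb (σ : k →+* ℂ)).mapMatrix A).charpoly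
      (Matrix.charpoly_monic _) (by rw [Matrix.charpoly_natDegree_eq_dim, Fintype.card_fin])
    refine ⟨v, fun i => ?_, ?_⟩
    · have h1 := (mem_roots'.mp (hv i)).2
      exact mem_roots'.mpr ⟨hF0, h1.dvd (hd σ)⟩
    · rw [map_tf, ← hp]

end

section

variable {G : Type*} [Group G] {M : ℕ} {ρ : G →* Matrix (Fin M) (Fin M) ℂ} {Γ : Subgroup G}
  {k : Type} [Field k] [NumberField k] {n : ℕ} {S : Finset (k →+* ℂ)}

/-- a nontrivial element whose eigenvalues are at most `L` -/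
theorem step (R : Realization ρ Γ k n S) (htf : ∀ γ ∈ Γ, ∀ N : ℕ, 0 < N → γ ^ N = 1 → γ = 1)
    (γ : Γ) (hγ : γ ≠ 1) (L : ℝ) (hL : 1 ≤ L) (h : ∀ l : ℂ, IsEig (ρ γ) l → ‖l‖ ≤ L) :
    ∃ F : ℤ[X], F.Monic ∧ F.natDegree = n * finrank ℚ (tf (R.r γ)) ∧
      (F.map (Int.castRingHom ℂ)).mahlerMeasure ≤
        L ^ (n * (S.card / finrank (tf (R.r γ)) k)) ∧
      (∀ σ : k →+* ℂ, ((emb σ).mapMatrix (R.r γ)).charpoly ∣ F.map (Int.castRingHom ℂ)) ∧
      1 < (F.map (Int.castRingHom ℂ)).mahlerMeasure := by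
  obtain ⟨F, hF, hdeg, hM, hd⟩ := key (R.r γ) S L hL (fun σ hσ l hl => R.comp' γ σ hσ l hl)
    (fun σ hσ l hl => h l (R.eig σ hσ γ l hl))
  refine ⟨F, hF, hdeg, hM, hd, ?_⟩
  have h1 : 1 ≤ (F.map (Int.castRingHom ℂ)).mahlerMeasure := by
    apply one_le_mahlerMeasure_of_one_le_norm_leadingCoeff
    rw [(hF.map _).leadingCoeff, norm_one]
  refine lt_of_le_of_ne h1 fun hM1 => hγ ?_
  obtain ⟨σ, _⟩ := R.nonempty
  have hunit : IsUnit (R.r γ) := (Group.isUnit γ).map R.r
  obtain ⟨N, hN, hnil⟩ := nilp_of_mahler (R.r γ) hunit F hM1.symm σ (hd σ)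
  rw [← map_pow] at hnil
  have h2 := R.unipotent _ hnil
  have h3 : (γ : G) ^ N = 1 := by
    have := congrArg Subtype.val h2
    simpa using this
  exact Subtype.ext (htf γ γ.2 N hN h3)

end

/-- gap for polynomials of bounded degree -/
theorem gap_bounded (N : ℕ) : ∃ t : ℝ, 1 < t ∧ ∀ F : ℤ[X], F ≠ 0 → F.natDegree ≤ N →
    (F.map (Int.castRingHom ℂ)).mahlerMeasure < t →
    (F.map (Int.castRingHom ℂ)).mahlerMeasure ≤ 1 := by
  classical
  set W : Finset ℝ := ((smallSet_finite N 2).toFinset.image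
    fun F => (F.map (Int.castRingHom ℂ)).mahlerMeasure).filter fun x => 1 < x with hW
  rcases W.eq_empty_or_nonempty with hE | hne
  · refine ⟨2, by norm_num, fun F hF hd hM => ?_⟩
    by_contra hcon
    push Not at hcon
    have : (F.map (Int.castRingHom ℂ)).mahlerMeasure ∈ W := by
      rw [hW, Finset.mem_filter, Finset.mem_image]
      exact ⟨⟨F, (smallSet_finite N 2).mem_toFinset.mpr ⟨hF, hd, hM.le⟩, rfl⟩, hcon⟩
    rw [hE] at this
    exact absurd this (Finset.notMem_empty _)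
  · refine ⟨min 2 (W.min' hne), ?_, fun F hF hd hM => ?_⟩
    · refine lt_min (by norm_num) ?_
      exact (Finset.mem_filter.mp (W.min'_mem hne)).2
    · by_contra hcon
      push Not at hcon
      have h1 : (F.map (Int.castRingHom ℂ)).mahlerMeasure ∈ W := by
        rw [hW, Finset.mem_filter, Finset.mem_image]
        exact ⟨⟨F, (smallSet_finite N 2).mem_toFinset.mpr
          ⟨hF, hd, hM.le.trans (min_le_left _ _)⟩, rfl⟩, hcon⟩
      have h2 := W.min'_le _ h1
      exact absurd (hM.trans_le (min_le_right _ _)) (not_lt.mpr h2)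

theorem exists_delta (N : ℕ) (t : ℝ) (ht : 1 < t) : ∃ δ : ℝ, 0 < δ ∧ (1 + δ) ^ N < t := by
  have h1 : Filter.Tendsto (fun x : ℝ => (1 + x) ^ N) (nhds 0) (nhds ((1 + 0) ^ N)) :=
    Continuous.tendsto (by fun_prop) 0
  rw [add_zero, one_pow] at h1
  have h2 := h1.eventually_lt_const ht
  obtain ⟨r, hr, h3⟩ := Metric.eventually_nhds_iff.mp h2
  refine ⟨r / 2, by positivity, h3 ?_⟩
  rw [Real.dist_eq, sub_zero, abs_of_pos (by positivity)]
  linarith

/-- the inequality between the degrees -/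
theorem deg_ineq (m e : ℕ) (hm : 2 ≤ m) (he : 1 ≤ e) : m * e ≤ m ^ e := by
  induction e, he using Nat.le_induction with
  | base => simp
  | succ e he ih =>
    rw [pow_succ]
    have h1 : m * (e + 1) ≤ (m * e) * 2 := by nlinarith
    exact h1.trans (Nat.mul_le_mul ih hm)

theorem rpow_ineq (n s m e q d : ℕ) (c : ℕ) (hn : 0 < n) (hm : 16 ≤ m) (he : 1 ≤ e)
    (hq : q = c / e) (hc : c ≤ s) (hs : 0 < s) (hd : m * e = d) (η : ℝ) (hη : 0 < η) :
    ((d : ℝ) ^ (η / (n * s))) ^ (n * q) ≤ ((n * m : ℕ) : ℝ) ^ η := by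
  have hm0 : (0 : ℝ) < m := by
    have : 0 < m := by omega
    exact_mod_cast this
  have hn0 : (0 : ℝ) < n := by exact_mod_cast hn
  have hs0 : (0 : ℝ) < s := by exact_mod_cast hs
  have he0 : (0 : ℝ) < e := by exact_mod_cast he
  have hd1 : 1 ≤ d := by
    rw [← hd]; exact Nat.mul_pos (by omega) he
  have hd1' : (1 : ℝ) ≤ d := by exact_mod_cast hd1
  have hqe : q * e ≤ s := by
    rw [hq]; exact (Nat.div_mul_le_self c e).trans hc
  have hqe' : (q : ℝ) * e ≤ s := by exact_mod_cast hqe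
  have h1 : ((d : ℝ) ^ (η / (n * s))) ^ (n * q) = (d : ℝ) ^ (η / (n * s) * (n * q : ℕ)) := by
    rw [← Real.rpow_natCast, ← Real.rpow_mul (by linarith)]
  have h2 : η / (n * s) * (n * q : ℕ) ≤ η / e := by
    push_cast
    rw [show η / (n * s) * (n * q) = η * q / s by field_simp]
    rw [div_le_div_iff₀ hs0 he0]
    nlinarith
  have h3 : (d : ℝ) ≤ (m : ℝ) ^ (e : ℝ) := by
    rw [Real.rpow_natCast]
    have := deg_ineq m e (by omega) he
    rw [hd] at this
    exact_mod_cast this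
  calc ((d : ℝ) ^ (η / (n * s))) ^ (n * q) = (d : ℝ) ^ (η / (n * s) * (n * q : ℕ)) := h1
    _ ≤ (d : ℝ) ^ (η / e) := Real.rpow_le_rpow_of_exponent_le hd1' h2
    _ ≤ ((m : ℝ) ^ (e : ℝ)) ^ (η / e) := Real.rpow_le_rpow (by linarith) h3 (by positivity)
    _ = (m : ℝ) ^ η := by
        rw [← Real.rpow_mul hm0.le]
        congr 1
        field_simp
    _ ≤ ((n * m : ℕ) : ℝ) ^ η := by
        refine Real.rpow_le_rpow hm0.le ?_ hη.le
        exact_mod_cast Nat.le_mul_of_pos_left m hn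

end Pool.Agent.H589.Marg
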