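import Mathlib

/-!
# The product of the conjugates of a polynomial over a number field
-/

set_option autoImplicit false

open Polynomial

namespace Pool.Agent.H589.Marg

variable {K : Type} [Field K] [NumberField K]

/-- the product of the conjugates -/
noncomputable def PP (f : K[X]) : ℂ[X] := ∏ σ : K →+* ℂ, f.map σ

theorem eval_PP (f : K[X]) (t : ℚ) :
    (PP f).eval (t : ℂ) = ((Algebra.norm ℚ (f.eval (t : K)) : ℚ) : ℂ) := by
  have h1 : ((Algebra.norm ℚ (f.eval (t : K)) : ℚ) : ℂ) =
      ∏ σ : K →ₐ[ℚ] ℂ, σ (f.eval (t : K)) := by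
    have := Algebra.norm_eq_prod_embeddings ℚ ℂ (f.eval (t : K))
    simpa using this
  rw [h1, ← Fintype.prod_equiv (RingHom.equivRatAlgHom K ℂ) (fun φ => φ (f.eval (t : K)))
    (fun φ => φ (f.eval (t : K))) fun _ => by simp [RingHom.equivRatAlgHom_apply]]
  rw [PP, eval_prod]
  refine Finset.prod_congr rfl fun σ _ => ?_
  have h2 : ((t : ℚ) : ℂ) = σ (t : K) := by simp
  rw [h2, eval_map, eval₂_at_apply]

/-- the product of the conjugates has rational coefficients (proof of `Pool.Agent.R202.RS`) -/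
theorem exists_rat (f : K[X]) :
    ∃ P0 : ℚ[X], P0.map (algebraMap ℚ ℂ) = PP f := by
  classical
  set N := (PP f).natDegree with hN
  set s : Finset ℕ := Finset.range (N + 1) with hs
  let v : ℕ → ℚ := fun i => i
  have hv : Set.InjOn v s := fun a _ b _ h => by simpa [v] using h
  let r : ℕ → ℚ := fun i => Algebra.norm ℚ (f.eval ((v i : ℚ) : K))
  refine ⟨Lagrange.interpolate s v r, ?_⟩
  let w : ℕ → ℂ := fun i => (v i : ℂ)
  have hw : Set.InjOn w s := fun a _ b _ h => by simpa [w, v] using h
  refine Polynomial.eq_of_degrees_lt_of_eval_index_eq (v := w) s hw ?_ ?_ ?_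
  · rw [degree_map]
    exact Lagrange.degree_interpolate_lt r hv
  · rw [hs, Finset.card_range]
    exact lt_of_le_of_lt degree_le_natDegree (by exact_mod_cast Nat.lt_succ_self _)
  · intro i hi
    have h1 : w i = algebraMap ℚ ℂ (v i) := by simp [w]
    rw [h1, eval_map, eval₂_at_apply, Lagrange.eval_interpolate_at_node r hv hi]
    have := eval_PP f (v i)
    simpa using this.symm

theorem PP_monic (f : K[X]) (hf : f.Monic) : (PP f).Monic :=
  monic_prod_of_monic _ _ fun σ _ => hf.map σ

theorem PP_natDegree (f : K[X]) (hf : f.Monic) :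
    (PP f).natDegree = f.natDegree * Module.finrank ℚ K := by
  unfold PP
  rw [natDegree_prod_of_monic _ _ fun σ _ => hf.map σ]
  simp only [hf.natDegree_map]
  rw [Finset.sum_const, Finset.card_univ, smul_eq_mul, mul_comm, NumberField.Embeddings.card]

theorem PP_integral (f : K[X]) (hi : ∀ i, IsIntegral ℤ (f.coeff i)) (i : ℕ) :
    IsIntegral ℤ ((PP f).coeff i) := by
  have h1 : PP f ∈ lifts (algebraMap (integralClosure ℤ ℂ) ℂ) := by
    unfold PP
    refine Subsemiring.prod_mem _ fun σ _ => ?_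
    rw [lifts_iff_coeff_lifts]
    intro n
    rw [coeff_map]
    have h2 : IsIntegral ℤ (σ (f.coeff n)) := (hi n).map (σ : K →+* ℂ).toIntAlgHom
    exact ⟨⟨_, h2⟩, rfl⟩
  rw [lifts_iff_coeff_lifts] at h1
  obtain ⟨y, hy⟩ := h1 i
  rw [← hy]
  exact y.2

/-- the norm of a monic integral polynomial is a monic integer polynomial -/
theorem exists_int (f : K[X]) (hf : f.Monic) (hi : ∀ i, IsIntegral ℤ (f.coeff i)) :
    ∃ F : ℤ[X], F.Monic ∧ F.map (Int.castRingHom ℂ) = PP f := by
  obtain ⟨P0, hP0⟩ := exists_rat f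
  have h1 : P0 ∈ lifts (Int.castRingHom ℚ) := by
    rw [lifts_iff_coeff_lifts]
    intro n
    have h2 := PP_integral f hi n
    rw [← hP0, coeff_map] at h2
    have h3 : IsIntegral ℤ (P0.coeff n) :=
      (isIntegral_algebraMap_iff (algebraMap ℚ ℂ).injective).mp h2
    obtain ⟨y, hy⟩ := IsIntegrallyClosed.isIntegral_iff.mp h3
    exact ⟨y, by simpa using hy⟩
  obtain ⟨F, hF⟩ := (mem_lifts _).mp h1
  have h2 : F.map (Int.castRingHom ℂ) = PP f := by
    rw [← hP0, ← hF, Polynomial.map_map]
    congr 1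
  refine ⟨F, ?_, h2⟩
  have h3 := PP_monic f hf
  rw [← h2] at h3
  exact monic_of_injective (RingHom.injective_int _) h3

theorem mahler_prod {ι : Type*} (s : Finset ι) (g : ι → ℂ[X]) :
    (∏ i ∈ s, g i).mahlerMeasure = ∏ i ∈ s, (g i).mahlerMeasure := by
  classical
  induction s using Finset.induction_on with
  | empty => simp
  | insert a s ha ih =>
    rw [Finset.prod_insert ha, Finset.prod_insert ha, mahlerMeasure_mul, ih]

/-- the Mahler measure of a monic polynomial with roots of absolute value at most `L` -/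
theorem mahler_le (p : ℂ[X]) (hp : p.Monic) (L : ℝ) (hL : 1 ≤ L)
    (h : ∀ z, p.IsRoot z → ‖z‖ ≤ L) : p.mahlerMeasure ≤ L ^ p.natDegree := by
  rw [mahlerMeasure_eq_leadingCoeff_mul_prod_roots, hp.leadingCoeff, norm_one, one_mul]
  have h1 : ∀ x ∈ p.roots.map (fun a => max 1 ‖a‖), x ≤ L := by
    intro x hx
    obtain ⟨a, ha, rfl⟩ := Multiset.mem_map.mp hx
    exact max_le hL (h a (mem_roots'.mp ha).2)
  have h2 : ∀ m : Multiset ℂ, (∀ a ∈ m, max 1 ‖a‖ ≤ L) →
      (m.map (fun a => max 1 ‖a‖)).prod ≤ L ^ m.card := by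
    intro m
    induction m using Multiset.induction_on with
    | empty => intro _; simp
    | cons a m ih =>
      intro hm
      rw [Multiset.map_cons, Multiset.prod_cons, Multiset.card_cons, pow_succ, mul_comm]
      have h3 := ih fun b hb => hm b (Multiset.mem_cons_of_mem hb)
      have h4 := hm a (Multiset.mem_cons_self a m)
      have h5 : 0 ≤ max 1 ‖a‖ := le_trans zero_le_one (le_max_left _ _)
      exact mul_le_mul h3 h4 h5 (by positivity)
  refine (h2 p.roots fun a ha => h1 _ (Multiset.mem_map_of_mem _ ha)).trans ?_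
  exact pow_le_pow_right₀ hL (card_roots' p)

end Pool.Agent.H589.Marg
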